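import Pool.Agent.X281.OB.RatN3
import Pool.Agent.X281.SE.Many2

/-!
# Sections of 100% of all superelliptic curves with `r` rational branch points are locally given by one
# and the same rational point

Let `k` be a number field, or any field finitely generated over `ℚ`, that is, the fraction field of a
domain `R` of characteristic zero that is finitely generated as a ring.  Let `r ≥ 0` and `D ≥ 3`, and for
`(a, e₁, …, e_r, c₀, …, c_D) ∈ R^(r+D+2)` consider the curves

  `C : a^m y^ℓ = f(x) = (x - e₁) ⋯ (x - e_r) (c₀ + c₁ x + … + c_D x^D)`,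

where all coefficients vary and `ℓ` is ANY prime number.  These are the superelliptic curves (for `ℓ = 2`
the hyperelliptic curves) with `r` marked rational branch points `P_i = (e_i, 0)`; if `ℓ` does not divide
`r + D`, the degree of `f`, then there is one more rational branch point `∞`.

**Theorem.**  For all vectors outside a set of density zero the following is true for ALL prime numbers `ℓ`,
all `m` prime to `ℓ`, all finite extensions `L` of `k` of degree prime to `ℓ` (and less than `D`, if `ℓ` does
not divide `D`) and for every section `s` of `Gal(N/F) → G_L`; here `F = L(x, y)` is the function field of the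
curve over `L`, and `N` is any extension of `F` in its algebraic closure which contains the maximal pro-`ℓ`
extension `M` of `L̄ F` unramified over the curve, for instance `N = M`, or `N = F_U` (sections of `π₁(U)` for
the curve or an open subcurve `U`), or the algebraic closure of `F` (birational sections).  There is ONE of
the rational branch points, `P` say, such that for at least `n` prime numbers `p` (prime to a given number
`q`), a place `B` of `L` above `p` and all places `V` of `L̄` above `B`: the image in `Gal(M/F)` of the
decomposition group `D_V ⊆ G_L` under `s` lies in the decomposition group of exactly one place of `M` above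
a branch point of `x : C → ℙ¹`, and this place lies above `P`.

So at these `n` places the section is locally, in the whole geometrically pro-`ℓ` fundamental group, the
section of the rational point `P`, with the same `P` for all of them.  The sections are arbitrary; it is
not assumed that they are locally geometric.  The number `n` can be chosen arbitrarily.  If `r = 0` and `ℓ`
divides `D`, there is no rational branch point, so that there are no sections.  The set of the exceptional
vectors has density zero in a strong sense: for every `ε > 0` there is an ideal `I` of `R` of finite index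
such that they lie in at most `ε #(R/I)^(r+D+2)` residue classes modulo `I`.

In `MP_2f3286_ag.OnePointLocally` quadratic twists `d y² = ∏ (x - e_k)` of one curve over `ℚ` are
considered, all branch points of which are rational.  The case `r = 0` is contained in
`MP_8312c9_nt.ProEllAnyExponents` (`ℓ` divides `D`, no sections) and in
`MP_2f3286_ag.SectionsAtInfinity` (`ℓ` does not divide `D`, one rational branch point).

Proof.  Hilbert's irreducibility theorem, Newton's lemma and a sieve with places `v` of a number field
give for almost all vectors `n (r + 1) + 1` discrete valuation rings `A` of `k`, with finite residue fields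
of different characteristics, at which `a` is a uniformiser or the inverse of one, the `e_i` are different
and not zero in the residue field, and the reduction of `g = c₀ + … + c_D x^D` is irreducible of degree
`D`.  At most one of the characteristics is `ℓ`; this place is not used.  There is a discrete valuation
ring `B` of `L` above `A` whose ramification index and residue degree are prime to `ℓ`, so that the
reduction of `g` has no root over the residue field of `B`.  If `∞` is a branch point, we use the
coordinate `u = 1/x`, and the equation becomes `a^m w^ℓ = u^((r + D)(ℓ - 1)) h(u)` for the reversed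
polynomial `h`.  If `ℓ` divides the number of the branch points, the theorem on sections of geometrically
pro-`ℓ` fundamental groups of such curves over local fields can be used (project PS of helper157, used for
`MP_2f3286_ag.OnePointLocally` and `MP_c385f6_ag.ProEllSections`).  In general one needs the elements
`((u - b)/(u - b'))^(1/ℓ)` of `M` for the branch points `b ≠ b'`: for two of them a twist of this element by
a root of a unit is fixed by the section over the extension generated by the branch points, and it
gives a description of `M` with a number of branch points that is divisible by `ℓ`.  So the section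
restricted to `D_V` fixes exactly one place of `M` above a branch point, and this branch point is fixed
by `D_V`; its reduction is rational over the residue field, so that it is not a root of `g`.  At least
`n` of the places give the same rational branch point.
-/

open Polynomial

namespace Pool.Agent.Results.MP_896029_ag.SectionsAtMarkedPoints

section definitions

variable (ℓ : ℕ) (k F Ω : Type) [Field k] [Field F] [Field Ω] [Algebra k F] [Algebra F Ω]
  [Algebra k Ω]

/-- The inertia group of the valuation ring `W` of `Ω`, as a subgroup of `Gal(Ω/F)`: the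
automorphisms of `Ω` over `F` that map `W` onto itself and act as the identity on its residue
field. -/
noncomputable def inertia (W : ValuationSubring Ω) : Subgroup (Ω ≃ₐ[F] Ω) :=
  (W.inertiaSubgroup F).map (W.decompositionSubgroup F).subtype

/-- `F_U`, for a set `U` of valuation rings of `F`: the elements of `Ω` fixed by the inertia groups
of all valuation rings `W` of `Ω` with `W ∩ F ∈ U`.  If `Ω` is an algebraic closure of a field `F`
of characteristic zero, this is the maximal extension of `F` in `Ω` unramified over `U`. -/
noncomputable def unramified (U : Set (ValuationSubring F)) : IntermediateField F Ω :=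
  ⨅ W : {W : ValuationSubring Ω // W.comap (algebraMap F Ω) ∈ U},
    IntermediateField.fixedField (inertia F Ω W.1)

/-- `k̄ F`, the compositum of `F` and of the algebraic closure of `k` in `Ω`. -/
noncomputable def geomField : IntermediateField F Ω :=
  IntermediateField.adjoin F (algebraicClosure k Ω : Set Ω)

/-- The algebraic extension `L` of `K` in `Ω` is unramified at all valuation rings of `Ω` that
contain `k`: every nonzero element of `L` has the same valuation as an element of `K`.  (If `K` is
a function field of one variable over the algebraic closure of `k` and `k` has characteristic zero,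
then this says that `L/K` is unramified over all points of the smooth projective curve.) -/
def Unramified {k K Ω : Type} [Field k] [Field K] [Field Ω] [Algebra k Ω] [Algebra K Ω]
    (L : IntermediateField K Ω) : Prop :=
  ∀ W : ValuationSubring Ω, (∀ c : k, algebraMap k Ω c ∈ W) → ∀ z ∈ L, z ≠ 0 →
    ∃ t : K, t ≠ 0 ∧ z / algebraMap K Ω t ∈ W ∧ (z / algebraMap K Ω t)⁻¹ ∈ W

/-- `L/K` is a finite Galois extension whose degree is a power of `ℓ`. -/
def FiniteProEll (ℓ : ℕ) {K Ω : Type} [Field K] [Field Ω] [Algebra K Ω]
    (L : IntermediateField K Ω) : Prop :=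
  FiniteDimensional K L ∧ IsGalois K L ∧ ∃ m : ℕ, Module.finrank K L = ℓ ^ m

/-- The maximal unramified pro-`ℓ` extension of `K` in `Ω`: the compositum of the finite Galois
extensions of `K` whose degree is a power of `ℓ` and which are unramified. -/
noncomputable def maxProEll (ℓ : ℕ) (k K Ω : Type) [Field k] [Field K] [Field Ω] [Algebra k Ω]
    [Algebra K Ω] : IntermediateField K Ω :=
  ⨆ L : {L : IntermediateField K Ω // FiniteProEll ℓ L ∧ Unramified (k := k) L}, L.1

/-- `M`, the maximal unramified pro-`ℓ` extension of `k̄ F` in `Ω`, as an extension of `F`. -/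
noncomputable def proEllField : IntermediateField F Ω :=
  (maxProEll ℓ k (geomField k F Ω) Ω).restrictScalars F

/-- The map `τ : M → M` acts as `σ : K → K` on the elements that the fields `K` and `M` have in
common when they are regarded as subfields of `Ω` through `i` and `j`. -/
def ActsAs {K M Ω : Type} [Field K] [Field M] [Field Ω] (i : K →+* Ω) (j : M →+* Ω) (σ : K → K)
    (τ : M → M) : Prop :=
  ∀ c z, j z = i c → j (τ z) = i (σ c)

/-- Let `k ⊆ K ⊆ Ω` and `F ⊆ N ⊆ Ω` be fields.  A splitting of `Gal(N/F) → Gal(K/k)`: a continuous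
homomorphism `s` from `Gal(K/k)` to `Gal(N/F)` such that `s(σ)` acts as `σ` on the elements of
`K ∩ N`. -/
structure Splitting (K N : Type) [Field K] [Field N] [Algebra k K] [Algebra F N] [Algebra K Ω]
    [Algebra N Ω] where
  /-- the homomorphism `Gal(K/k) → Gal(N/F)` -/
  toHom : (K ≃ₐ[k] K) →* (N ≃ₐ[F] N)
  cont : Continuous toHom
  compat : ∀ σ : K ≃ₐ[k] K, ActsAs (algebraMap K Ω) (algebraMap N Ω) σ (toHom σ)

end definitions

section attached

variable {k F N L Ω : Type} [Field k] [Field F] [Field N] [Field L] [Field Ω] [Algebra k F]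
  [Algebra F Ω] [Algebra k Ω] [Algebra k L] [Algebra F N] [Algebra L Ω] [Algebra N Ω]

/-- The valuation ring `W` of `N` contains `k`, and the function `t ∈ F` is in its maximal ideal.  For
`t = 1/x` this says that `W` lies above a point of the curve at infinity, and for `t = x - e` that it
lies above a point with `x = e`. -/
def ZeroAt (k : Type) {F N : Type} [Field k] [Field F] [Field N] [Algebra k F] [Algebra F N]
    (W : ValuationSubring N) (t : F) : Prop :=
  (∀ c : k, algebraMap F N (algebraMap k F c) ∈ W) ∧ algebraMap F N t ∈ W.nonunits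

/-- The valuation ring `W` of `N` lies above a branch point of the curve `a y^ℓ = f(x)`, a zero of
`f(x)`, or the point at infinity if `ℓ` does not divide the degree of `f`. -/
def AboveBranchPoint (ℓ : ℕ) (f : k[X]) (x : F) (W : ValuationSubring N) : Prop :=
  ZeroAt k W (aeval x f) ∨ (¬ ℓ ∣ f.natDegree ∧ ZeroAt k W x⁻¹)

/-- Let `D_V` be the decomposition group of the valuation ring `V` of `L` in `Gal(L/k)`.  The image of
`D_V` under `s : Gal(L/k) → Gal(N/F)` in `Gal(M/F)`, where `M ⊆ N ⊆ Ω`, is contained in the
decomposition group of the valuation ring `W ∩ M`. -/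
def LocallyIn (V : ValuationSubring L) (s : Splitting k F Ω L N) (M : IntermediateField F Ω)
    (W : ValuationSubring N) : Prop :=
  ∀ σ : L ≃ₐ[k] L, (∀ c : L, σ c ∈ V ↔ c ∈ V) →
    ∀ z : N, algebraMap N Ω z ∈ M → (s.toHom σ z ∈ W ↔ z ∈ W)

/-- The restriction of `s` to `D_V` is the section of the branch point of the curve `a y^ℓ = f(x)` where
`t` vanishes, and of no other branch point: there is a valuation ring `W` of `N` above this point such
that the image of `D_V` in `Gal(M/F)` lies in the decomposition group of `W ∩ M`, and `W ∩ M` is the only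
valuation ring of `M` above a branch point with this property. -/
def LocallyAt (ℓ : ℕ) (V : ValuationSubring L) (f : k[X]) (x t : F) (s : Splitting k F Ω L N)
    (M : IntermediateField F Ω) : Prop :=
  ∃ W : ValuationSubring N, ZeroAt k W t ∧ LocallyIn V s M W ∧
    ∀ W' : ValuationSubring N, AboveBranchPoint ℓ f x W' → LocallyIn V s M W' →
      ∀ z : N, algebraMap N Ω z ∈ M → (z ∈ W' ↔ z ∈ W)

end attached

/-- `B` is a place of `k` above the prime number `p`: a discrete valuation ring with finite residue field
of characteristic `p`. -/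
def IsPlace {k : Type} [Field k] (p : ℕ) (B : ValuationSubring k) : Prop :=
  IsDiscreteValuationRing B ∧ Finite (IsLocalRing.ResidueField B) ∧ (p : k) ∈ B.nonunits

/-- Let `F = k(x, y)` be the function field of the curve `a y^ℓ = f(x)` over `k`, let `Ω` be an algebraic
closure of `F`, and let `M` be the maximal unramified pro-`ℓ` extension of `k̄ F`.  Then `M ⊆ F_U` for
all sets `U` of valuation rings of `F` over `k`.  For all extensions `N ⊇ M` of `F` in `Ω`, in particular
for `N = M` and for `N = F_U`, and for every section `s` of `Gal(N/F) → G_k` there is one function `t` which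
is `x - e` for one of the elements `e` of the family `e_i` or, if `ℓ` does not divide the degree of `f`,
`1/x`, such that for at least `n` prime numbers `p ∤ q` there is a place `B` of `k` above `p` such that for
all valuation rings `V` of `k̄` above `B` the restriction of `s` to the decomposition group of `V` is the
section of the branch point where `t` vanishes. -/
def AllSectionsAtOnePoint (n q ℓ : ℕ) {k : Type} [Field k] (a : k) (f : k[X]) {r : ℕ}
    (e : Fin r → k) : Prop :=
  ∀ (F Ω : Type) [Field F] [Field Ω] [Algebra k F] [Algebra F Ω] [Algebra k Ω]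
    [IsScalarTower k F Ω] [IsAlgClosure F Ω] (x y : F), Transcendental k x →
    algebraMap k F a * y ^ ℓ = aeval x f →
    IntermediateField.adjoin k {x, y} = (⊤ : IntermediateField k F) →
    (∀ U : Set (ValuationSubring F), (∀ O ∈ U, ∀ c : k, algebraMap k F c ∈ O) →
      proEllField ℓ k F Ω ≤ unramified F Ω U) ∧
    ∀ N : IntermediateField F Ω, proEllField ℓ k F Ω ≤ N →
      ∀ s : Splitting k F Ω (algebraicClosure k Ω) N,
        ∃ t : F, ((∃ i, t = x - algebraMap k F (e i)) ∨ (¬ ℓ ∣ f.natDegree ∧ t = x⁻¹)) ∧
          ∃ P : Finset ℕ, n ≤ P.card ∧ ∀ p ∈ P, p.Prime ∧ ¬ p ∣ q ∧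
            ∃ B : ValuationSubring k, IsPlace p B ∧
              ∀ V : ValuationSubring (algebraicClosure k Ω),
                V.comap (algebraMap k (algebraicClosure k Ω)) = B →
                LocallyAt ℓ V f x t s (proEllField ℓ k F Ω)

section families

variable {R : Type} [CommRing R] (k : Type) [Field k] [Algebra R k] {r D : ℕ}

/-- For a vector `(a, e₁, …, e_r, c₀, …, c_D)` of elements of `R` the number `a ∈ k`. -/
def coeffA (c : Fin (r + (D + 1) + 1) → R) : k := algebraMap R k (c 0)

/-- For a vector `(a, e₁, …, e_r, c₀, …, c_D)` of elements of `R` the numbers `e_i ∈ k`. -/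
def roots (c : Fin (r + (D + 1) + 1) → R) (i : Fin r) : k :=
  algebraMap R k (c (Fin.castAdd (D + 1) i).succ)

/-- For a vector `(a, e₁, …, e_r, c₀, …, c_D)` of elements of `R` the polynomial `c₀ + … + c_D x^D`. -/
noncomputable def polyG (c : Fin (r + (D + 1) + 1) → R) : k[X] :=
  ∑ j : Fin (D + 1), C (algebraMap R k (c (Fin.natAdd r j).succ)) * X ^ (j : ℕ)

/-- For a vector `(a, e₁, …, e_r, c₀, …, c_D)` of elements of `R` the polynomial
`(x - e₁) ⋯ (x - e_r) (c₀ + … + c_D x^D)`. -/
noncomputable def poly (c : Fin (r + (D + 1) + 1) → R) : k[X] :=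
  (∏ i : Fin r, (X - C (roots k c i))) * polyG k c

variable (R) (r D)

/-- The vectors `c = (a, e₁, …, e_r, c₀, …, c_D)` of elements of `R` that do not have the following
property: `a ≠ 0`, the `e_i` are different, `c₀ + … + c_D x^D` is irreducible of degree `D` over `k`, and
for all prime numbers `ℓ` and all finite extensions `L` of `k` and integers `m` such that `ℓ` does not
divide `m [L : k]`, and such that `ℓ` divides `D` or the degree of `L` is less than `D`, every section for the curve `a^m y^ℓ = f(x)` over `L` is at `n` places prime to `q` the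
section of one and the same of the rational branch points `(e_i, 0)` and, if `ℓ ∤ r + D`, `∞`. -/
def Exceptional (n q : ℕ) : Set (Fin (r + (D + 1) + 1) → R) :=
  {c | ¬ (coeffA k c ≠ 0 ∧ Function.Injective (roots k c) ∧ (polyG k c).natDegree = D ∧
    Irreducible (polyG k c) ∧
    ∀ ℓ : ℕ, ℓ.Prime →
      ∀ (L : Type) [Field L] [Algebra k L] [FiniteDimensional k L] (m : ℤ),
        (ℓ ∣ D ∨ Module.finrank k L < D) → ¬ (ℓ : ℤ) ∣ m * (Module.finrank k L : ℤ) →
        AllSectionsAtOnePoint n q ℓ (algebraMap k L (coeffA k c ^ m))
          ((poly k c).map (algebraMap k L)) fun i => algebraMap k L (roots k c i))}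

/-- Density zero: for every `ε > 0` there is an ideal `I` of `R` of finite index such that `E` lies
in at most `ε #(R/I)ᴺ` residue classes modulo `I`. -/
def DensityZero {R : Type} [CommRing R] {N : ℕ} (E : Set (Fin N → R)) : Prop :=
  ∀ ε : ℝ, 0 < ε → ∃ I : Ideal R, Finite (R ⧸ I) ∧
    (Set.ncard ((fun (t : Fin N → R) i => Ideal.Quotient.mk I (t i)) '' E) : ℝ) ≤
      ε * (Nat.card (R ⧸ I) : ℝ) ^ N

end families

section proof

lemma iSup_congr_prop {α : Type} [CompleteLattice α] {P Q : α → Prop} (h : ∀ L, P L ↔ Q L) :
    (⨆ L : {L // P L}, L.1) = ⨆ L : {L // Q L}, L.1 := by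
  have h1 : P = Q := funext fun L => propext (h L)
  subst h1
  rfl

lemma proEll_eq (ℓ : ℕ) (k F Ω : Type) [Field k] [Field F] [Field Ω] [Algebra k F] [Algebra F Ω]
    [Algebra k Ω] : proEllField ℓ k F Ω = Pool.Agent.Y157.PS.geomPro ℓ k F Ω := by
  unfold proEllField Pool.Agent.Y157.PS.geomPro maxProEll Pool.Agent.Y157.PS.maxPro
  congr 1
  refine iSup_congr_prop fun L => ?_
  constructor
  · rintro ⟨⟨h1, h2, h3⟩, h4⟩
    refine ⟨⟨h1, h2, h3⟩, fun W hW z hz hz0 => ?_⟩
    obtain ⟨t, ht, h5, h6⟩ := h4 W hW z hz hz0
    exact ⟨t, ht, div_ne_zero hz0 ((_root_.map_ne_zero _).2 ht), h5, h6⟩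
  · rintro ⟨⟨h1, h2, h3⟩, h4⟩
    refine ⟨⟨h1, h2, h3⟩, fun W hW z hz hz0 => ?_⟩
    obtain ⟨t, ht, -, h5, h6⟩ := h4 W hW z hz hz0
    exact ⟨t, ht, h5, h6⟩

lemma all_of {ℓ : ℕ} (hℓ : ℓ.Prime) {k : Type} [Field k] [CharZero k] (a : k) (ha : a ≠ 0) (f : k[X])
    {r : ℕ} (e : Fin r → k) (n q : ℕ) (hn : 1 ≤ n)
    (p : Fin ((r + 1) * n) → ℕ) (hp : Function.Injective p) (hpp : ∀ j, (p j).Prime)
    (hpq : ∀ j, ¬ p j ∣ q) (B : Fin ((r + 1) * n) → ValuationSubring k)
    (hB : ∀ j, IsPlace (p j) (B j))
    (h : ∀ j, Pool.Agent.X281.OB.AtRatN ℓ (Set.range e) (B j) a f) :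
    AllSectionsAtOnePoint n q ℓ a f e := by
  classical
  intro F Ω _ _ _ _ _ _ _ x y hx hxy hF
  have hfact : Fact ℓ.Prime := ⟨hℓ⟩
  have hcl : IsAlgClosed Ω := IsAlgClosure.isAlgClosed F
  have halg : Algebra.IsAlgebraic F Ω := IsAlgClosure.isAlgebraic
  rw [proEll_eq]
  refine ⟨fun U hU => ?_, fun N hN s => ?_⟩
  · exact (Pool.Agent.Y157.PS.a_ind ℓ k F Ω x hx
      (Pool.Agent.Y157.PS.alg_of_eqn hℓ.pos f a ha x y hxy hF) U hU).1
  -- the branch point for each place
  have hj := fun j => h j F Ω x y hx hxy hF N hN s.toHom s.cont s.compat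
  choose t ht hV using hj
  let T : Option (Fin r) → F := fun o => o.elim x⁻¹ fun i => x - algebraMap k F (e i)
  have hT : ∀ j, ∃ o : Option (Fin r), t j = T o ∧ (o = none → ¬ ℓ ∣ f.natDegree) := by
    intro j
    rcases ht j with ⟨h1, h2⟩ | ⟨_, ⟨i, rfl⟩, h2⟩
    · exact ⟨none, h2, fun _ => h1⟩
    · exact ⟨some i, h2, fun h3 => absurd h3 (by simp)⟩
  choose o ho ho' using hT
  obtain ⟨o₀, ho₀⟩ := Fintype.exists_le_card_fiber_of_mul_le_card o (n := n) (by
    rw [Fintype.card_option, Fintype.card_fin, Fintype.card_fin])
  refine ⟨T o₀, ?_, (Finset.univ.filter fun j => o j = o₀).image p, ?_, ?_⟩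
  · obtain ⟨j, hj⟩ : ∃ j, o j = o₀ := by
      have h1 : 0 < (Finset.univ.filter fun j => o j = o₀).card := by
        exact lt_of_lt_of_le hn ho₀
      obtain ⟨j, hj⟩ := Finset.card_pos.1 h1
      exact ⟨j, (Finset.mem_filter.1 hj).2⟩
    rcases o₀ with _ | i
    · right
      exact ⟨ho' j hj, rfl⟩
    · left
      exact ⟨i, rfl⟩
  · rw [Finset.card_image_of_injective _ hp]
    exact ho₀
  · intro p' hp'
    obtain ⟨j, hj, rfl⟩ := Finset.mem_image.1 hp'
    have hj' : o j = o₀ := (Finset.mem_filter.1 hj).2
    refine ⟨hpp j, hpq j, B j, hB j, fun V hVB => ?_⟩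
    obtain ⟨W, ⟨h1, h2⟩, h3, h4⟩ := hV j V hVB
    rw [ho j, hj'] at h2
    refine ⟨W, ⟨h1, h2⟩, fun σ hσ z hz => h3 σ hσ z hz, fun W' hW' hst z hz => ?_⟩
    refine h4 W' ?_ ?_ (fun σ hσ z hz => hst σ hσ z hz) z hz
    · rcases hW' with hW' | hW'
      · exact hW'.1
      · exact hW'.2.1
    · rcases hW' with hW' | hW'
      · exact Or.inr hW'.2
      · exact Or.inl ⟨hW'.1, hW'.2.2⟩

lemma good_basic {k : Type} [Field k] {r D : ℕ} (hD : 3 ≤ D) (q q' : ℕ) (a : k)
    (g : Fin (r + (D + 1)) → k)
    (h : Pool.Agent.X281.SEA.GoodDvr (Pool.Agent.X281.SE.PC r D) q q' a g) :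
    Function.Injective (fun i : Fin r => g (Fin.castAdd (D + 1) i)) ∧
    g (Fin.natAdd r (Fin.last D)) ≠ 0 ∧
    Irreducible (Pool.Agent.TH377.Sup.pol fun j : Fin (D + 1) => g (Fin.natAdd r j)) := by
  obtain ⟨A, _, _, _, _, c, ϖ, t, s, hfr, hfin, hc, hPC, -⟩ := h
  have hAk : Function.Injective (algebraMap A k) := IsFractionRing.injective A k
  have hlast : IsUnit (c (Fin.natAdd r (Fin.last D))) := by
    by_contra h4
    exact hPC.2.2.1 ((IsLocalRing.residue_eq_zero_iff _).2 ((IsLocalRing.mem_maximalIdeal _).2 h4))
  refine ⟨?_, ?_, ?_⟩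
  · intro i j hij
    have h1 : c (Fin.castAdd (D + 1) i) = c (Fin.castAdd (D + 1) j) := by
      apply hAk
      rw [hc, hc]
      exact hij
    apply hPC.1
    exact congrArg (IsLocalRing.residue A) h1
  · rw [← hc, Ne, map_eq_zero_iff _ hAk]
    exact hlast.ne_zero
  · set f : A[X] := Pool.Agent.TH377.Sup.pol fun j : Fin (D + 1) => c (Fin.natAdd r j) with hf
    have hfg : f.map (algebraMap A k) =
        Pool.Agent.TH377.Sup.pol fun j : Fin (D + 1) => g (Fin.natAdd r j) := by
      rw [hf, Pool.Agent.TH377.Sup.pol_map]
      congr 1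
      funext j
      exact hc _
    have hirr : Irreducible (f.map (IsLocalRing.residue A)) := by
      rw [hf, Pool.Agent.TH377.Sup.pol_map]
      exact hPC.2.2.2
    have hlc : IsUnit f.leadingCoeff := by
      have h6 := Pool.Agent.TH377.Sup.pol_leadingCoeff
        (fun j : Fin (D + 1) => c (Fin.natAdd r j)) hlast.ne_zero
      rw [hf, h6]
      exact hlast
    obtain ⟨u, hu⟩ := hlc
    have hmon : (C ((u⁻¹ : Aˣ) : A) * f).Monic := by
      rw [Monic, leadingCoeff_mul, leadingCoeff_C, ← hu, Units.inv_mul]
    have h4 : Irreducible (C ((u⁻¹ : Aˣ) : A) * f) := by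
      refine hmon.irreducible_of_irreducible_map (IsLocalRing.residue A) _ ?_
      rw [Polynomial.map_mul, map_C]
      exact (irreducible_isUnit_mul (isUnit_C.2 ((u⁻¹).isUnit.map _))).2 hirr
    have h5 := (hmon.irreducible_iff_irreducible_map_fraction_map (K := k)).1 h4
    rw [Polynomial.map_mul, map_C, hfg] at h5
    exact (irreducible_isUnit_mul (isUnit_C.2 ((u⁻¹).isUnit.map _))).1 h5

end proof

/-- Let `R` be a domain of characteristic zero that is finitely generated as a ring, with fraction
field `k`, for instance the ring of integers of a number field.  Let `r ≥ 0`, `D ≥ 3`, `n ≥ 1` and `q ≥ 1`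
be integers.  For all vectors `(a, e₁, …, e_r, c₀, …, c_D)` of elements of `R` outside a set of density
zero, the numbers `e_i` are different, the polynomial `c₀ + … + c_D x^D` is irreducible of degree `D` over
`k`, and with `f = (x - e₁) ⋯ (x - e_r) (c₀ + … + c_D x^D)` the following is true for ALL prime numbers
`ℓ`, all finite extensions `L` of `k` and integers `m` such that `ℓ` does not divide `m [L : k]`, and such
that `ℓ` divides `D` or `[L : k] < D`.  For every section of the
geometrically pro-`ℓ` fundamental group of the curve `a^m y^ℓ = f(x)` over `L`, of the fundamental group of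
the curve or of an open subcurve, or of the absolute Galois group of the function field, there is one of
the rational branch points `(e_i, 0)` (and `∞`, if `ℓ` does not divide `r + D`) such that at least at `n`
places of `L` above different prime numbers `p ∤ q` the section is the one of this point, and of no other
branch point, in the whole geometrically pro-`ℓ` fundamental group. -/
theorem result (R : Type) [CommRing R] [IsDomain R] [CharZero R] [Algebra.FiniteType ℤ R]
    (k : Type) [Field k] [Algebra R k] [IsFractionRing R k] (r D : ℕ) (hD : 3 ≤ D) (n q : ℕ)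
    (hn : 1 ≤ n) (hq : q ≠ 0) : DensityZero (Exceptional R k r D n q) := by
  classical
  have hcz : CharZero k := charZero_of_injective_algebraMap (IsFractionRing.injective R k)
  have hδ : (0 : ℝ) < 1 / (2 ^ r * (4 * D)) := by
    have : (0 : ℝ) < D := by
      have : 0 < D := by omega
      exact_mod_cast this
    positivity
  have hδ1 : (1 / (2 ^ r * (4 * D)) : ℝ) ≤ 1 := by
    have h1 : (3 : ℝ) ≤ D := by exact_mod_cast hD
    have h2 : (1 : ℝ) ≤ 2 ^ r := one_le_pow₀ (by norm_num)
    rw [div_le_one (by positivity)]
    nlinarith
  intro ε hε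
  obtain ⟨Q, hQ1, hQ2, I, hI, hle⟩ := Pool.Agent.X281.SEN.density_iter (R := R)
    (M := r + (D + 1) + 1)
    (fun q q' c => Pool.Agent.X281.SEA.GoodC (Pool.Agent.X281.SE.PC r D) q q' k c)
    (fun q hq ε hε => Pool.Agent.X281.SEA.density_all (Pool.Agent.X281.SE.PC r D)
      (Pool.Agent.X281.SE.pc_desc r D) _ hδ hδ1 _ (Pool.Agent.X281.SE.pc_many r D hD) q hq ε hε)
    ((r + 1) * n + 1) q hq ε hε
  refine ⟨I, hI, le_trans ?_ hle⟩
  have hsub : (Exceptional R k r D n q : Set (Fin (r + (D + 1) + 1) → R)) ⊆
      {c : Fin (r + (D + 1) + 1) → R | ¬ ∀ j, Pool.Agent.X281.SEA.GoodC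
        (Pool.Agent.X281.SE.PC r D) (Q j).1 (Q j).2 k c} := by
    intro c hc hgood
    obtain ⟨h1, h2'⟩ := hgood 0
    obtain ⟨h3, h4, h5⟩ := good_basic hD _ _ _ _ h2'
    apply hc
    have hG : polyG k c = Pool.Agent.TH377.Sup.pol fun j : Fin (D + 1) =>
        algebraMap R k (c (Fin.natAdd r j).succ) := rfl
    have hfp : poly k c = Pool.Agent.X281.SE.fpol
        (fun i : Fin (r + (D + 1)) => algebraMap R k (c i.succ)) := rfl
    have hdeg : (poly k c).natDegree = r + D := by
      rw [hfp]
      exact Pool.Agent.X281.SE.fpol_natDegree _ h4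
    refine ⟨h1, h3, ?_, ?_, ?_⟩
    · rw [hG]
      exact Pool.Agent.TH377.Sup.pol_natDegree _ h4
    · rw [hG]
      exact h5
    intro ℓ hℓ L _ _ _ m hL hm
    have hczL : CharZero L := charZero_of_injective_algebraMap (algebraMap k L).injective
    have key := fun j => Pool.Agent.X281.OB.ratN_ext hD (Q j).1 (Q j).2 _ _ (hgood j).2
    choose p A hp hpq hpq' hA hext using key
    have hinj : Function.Injective p := by
      intro i j hij
      rcases lt_trichotomy i j with h4 | h4 | h4
      · exfalso
        apply hpq' j
        rw [← hij]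
        exact (hpq i).trans (hQ2 i j h4)
      · exact h4
      · exfalso
        apply hpq' i
        rw [hij]
        exact (hpq j).trans (hQ2 j i h4)
    -- at most one of the places has residue characteristic `ℓ`
    obtain ⟨j₀, hj₀⟩ : ∃ j₀, ∀ j, j ≠ j₀ → ℓ ≠ p j := by
      by_cases h6 : ∃ j₀, p j₀ = ℓ
      · obtain ⟨j₀, h6⟩ := h6
        refine ⟨j₀, fun j hj h7 => hj (hinj ?_)⟩
        rw [h6, h7]
      · push Not at h6
        exact ⟨0, fun j _ h7 => h6 j h7.symm⟩
    have hB := fun j => hext (j₀.succAbove j) ℓ hℓ (hj₀ _ (Fin.succAbove_ne j₀ j)) L m hL hm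
    choose B hB1 hB2 hB3 using hB
    refine all_of hℓ _ ?_ _ _ n q hn (fun j => p (j₀.succAbove j))
      (hinj.comp Fin.succAbove_right_injective) (fun j => hp _)
      (fun j h6 => hpq' _ (h6.trans (hQ1 _))) B
      (fun j => ⟨(hB1 j).dvr, (hB1 j).fin, (hB1 j).mem⟩) hB3
    rw [_root_.map_ne_zero]
    exact zpow_ne_zero _ h1
  exact_mod_cast Set.ncard_le_ncard (Set.image_mono hsub) (Set.toFinite _)

end Pool.Agent.Results.MP_896029_ag.SectionsAtMarkedPoints
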