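import Pool.Agent.Results.MP_896029_ag.SectionsOverExtensions
import Pool.Agent.X134.Win.Cube
import Pool.Agent.X134.Win.Idx

/-!
# Sections for the members in cubes of all families of subvarieties of powers of elliptic curves: valuative form

Let `v ≥ 1` be a sequence of exponent of convergence at most `τ` (`0` for `v_k = b ^ k`), `θ < 1` and `n ≥ 0`. There
is one set `A` in `ℝ ^ (n + 1)` of Hausdorff dimension at most `(n + τ) / (1 - θ)` such that for each `α` outside `A`
the following holds for ALL number fields `K`, ALL elliptic curves `E : y² = x³ + a x + b` over `K` whose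
Tate-Shafarevich group over `K` is killed by some integer (any rank; nothing is assumed over larger fields) and ALL
closed subsets `X` of `E ^ r × ℙ ^ n` over `K` (families of subvarieties `X_y ⊆ E ^ r` with parameter `y`) such that
for `1 ≤ m ≤ M` and every complex point of `E ^ r` the `y` for which it is a sum of `m` points of `X_y` lie on a
hypersurface of degree `d`. For all but finitely many `k`, ALL nonzero integral vectors `y` in the cube with centre
`v_k α` and side `2 v_k ^ θ` and ALL extensions `F` of `K` of degree at most `M`, no curve `C` over `F` with a map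
to `X_y` has a section of the map from `π₁(C)` to the absolute Galois group of `F` which satisfies the valuative
form of the section conjecture over the completions of `F` at all finite places.

The set `A` is small (of dimension less than `n + 1`) if `(n + 1) θ + τ < 1`.

Proof. The starting result `SectionsOverExtensions` shows that the exceptions up to height `B` lie on `O(B ^ ε)`
hypersurfaces of degree `d`; Schwartz-Zippel; covering argument `Pool.Agent.X174.windowsVec`; the situations are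
countable in number.
-/

set_option autoImplicit false

namespace Pool.Agent.Results.MP_896029_ag.SectionsInCubes

open MvPolynomial NumberField IsDedekindDomain MeasureTheory
open Pool.Agent.TH954 Pool.Agent.W620.SC

open scoped LinearAlgebra.Projectivization

/-- the exponent of convergence of the sequence `v` is at most `τ` -/
def ExpLe (v : ℕ → ℝ) (τ : ℝ) : Prop := ∀ t : ℝ, τ < t → Summable (fun n : ℕ => (v n) ^ (-t))

/-- the number fields inside a fixed algebraic closure of the rationals -/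
abbrev NF : Type := Pool.Agent.X134.Win.NF

/-- for `1 ≤ m ≤ M` and each complex point of `E ^ r` the `y` for which it is a sum of `m` points of `X_y` lie on a
hypersurface of degree `d` -/
def SumsOnHypersurface {K : Type} [Field K] (σ : K →+* ℂ) (a b : 𝓞 K) {r n q : ℕ}
    (G : Fin q → MvPolynomial ((Fin r × Fin 3) ⊕ Fin (n + 1)) (𝓞 K)) (M d : ℕ) : Prop :=
  ∀ m, 1 ≤ m → m ≤ M → ∀ S : Fin r → (SectionsOverExtensions.curve (σ a) (σ b)).toAffine.Point,
    ∃ g : MvPolynomial (Fin (n + 1)) ℂ, g ≠ 0 ∧ g.IsHomogeneous d ∧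
      ∀ y : ℙ ℂ (Fin (n + 1) → ℂ), SectionsOverExtensions.IsSum σ a b G m S y.rep → eval y.rep g = 0

/-- no curve over an extension `F` of `K` of degree at most `M` which maps to `X_y` has a section which satisfies the
valuative form of the section conjecture at all finite places: `L` is the function field of the curve, `U` the set
of the valuation rings of its points, `N` an extension of `L` which contains the maximal extension unramified over
`U`, `P` the image of the generic point in `E ^ r` -/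
def NoSection {K : Type} [Field K] [NumberField K] (a b : 𝓞 K) {r n q : ℕ}
    (G : Fin q → MvPolynomial ((Fin r × Fin 3) ⊕ Fin (n + 1)) (𝓞 K)) (M : ℕ)
    (y : ℙ K (Fin (n + 1) → K)) : Prop :=
  ∀ (F : Type) [Field F] [NumberField F] [Algebra K F] (_ : Module.finrank K F ≤ M)
    (L Ω N A : Type) [Field L] [Field Ω] [Field N] [Field A] [Algebra F L] [Algebra L Ω]
    [Algebra F Ω] [Algebra L N] [Algebra F N] [Algebra F A] [IsScalarTower F L Ω]
    [IsScalarTower F L N] [IsAlgClosure L Ω] [IsAlgClosure F A]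
    (U : Set (ValuationSubring L)) (_ : ∀ O ∈ U, ∀ c : F, algebraMap F L c ∈ O)
    (e : N →ₐ[L] Ω) (_ : unramified L Ω U ≤ e.fieldRange)
    (P : Fin r → ((SectionsOverExtensions.curve (algebraMap K F a)
      (algebraMap K F b)).baseChange L).toAffine.Point)
    (_ : OnX (SectionsOverExtensions.MemberOver G F y) (fun i => crd (P i))) (s : GalSection F L N A),
    ¬ ∀ w : HeightOneSpectrum (𝓞 F),
      s.GeometricOver (w.adicCompletion F) (AlgebraicClosure (w.adicCompletion F))

/-- the assertion for all elliptic curves over `K` and all families with parameters in `ℙ ^ n` -/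
def Explained (K : Type) [Field K] [NumberField K] (n : ℕ) (v : ℕ → ℝ) (α : Fin (n + 1) → ℝ)
    (θ : ℝ) : Prop :=
  ∀ a b : 𝓞 K, 4 * a ^ 3 + 27 * b ^ 2 ≠ 0 → ∀ M₀ : ℕ, 1 ≤ M₀ →
    ShaKilledBy (SectionsOverExtensions.curve (a : K) (b : K)) M₀ → ∀ (r q : ℕ)
    (G : Fin q → MvPolynomial ((Fin r × Fin 3) ⊕ Fin (n + 1)) (𝓞 K))
    (e : Fin q → Fin r → ℕ) (deg : Fin q → ℕ),
    (∀ l, SectionsOverExtensions.MultiHomog (G l) (e l) (deg l)) → ∀ (σ : K →+* ℂ) (M d : ℕ), 1 ≤ d →
    SumsOnHypersurface σ a b G M d → ∃ k₀ : ℕ, ∀ k : ℕ, k₀ ≤ k →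
      ∀ (y : Fin (n + 1) → ℤ) (hy : (fun j => (y j : K)) ≠ 0),
        (∀ j, |(y j : ℝ) - α j * v k| ≤ (v k) ^ θ) →
          NoSection a b G M (Projectivization.mk K (fun j => (y j : K)) hy)

section Proof

/-- the hypotheses -/
def Hyp (K : Type) [Field K] [NumberField K] {r n q : ℕ} (a b : 𝓞 K)
    (G : Fin q → MvPolynomial ((Fin r × Fin 3) ⊕ Fin (n + 1)) (𝓞 K)) (M d : ℕ) : Prop :=
  4 * a ^ 3 + 27 * b ^ 2 ≠ 0 ∧
    (∃ M₀ : ℕ, 1 ≤ M₀ ∧ ShaKilledBy (SectionsOverExtensions.curve (a : K) (b : K)) M₀) ∧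
    (∃ (e : Fin q → Fin r → ℕ) (m : Fin q → ℕ),
      ∀ l, SectionsOverExtensions.MultiHomog (G l) (e l) (m l)) ∧ 1 ≤ d ∧
    ∃ σ : K →+* ℂ, SumsOnHypersurface σ a b G M d

theorem few (K : Type) [Field K] [NumberField K] {r n q : ℕ} (a b : 𝓞 K)
    (G : Fin q → MvPolynomial ((Fin r × Fin 3) ⊕ Fin (n + 1)) (𝓞 K)) (M d : ℕ) :
    Pool.Agent.X134.Win.OnFewHypersurfaces d {y : ℙ K (Fin (n + 1) → K) | Hyp K a b G M d ∧
      ¬ NoSection a b G M y} := by
  by_cases h : Hyp K a b G M d
  · obtain ⟨h1, ⟨M₀, hM1, hM⟩, ⟨e, m, h2⟩, hd, σ, h3⟩ := id h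
    intro ε hε
    obtain ⟨C, hC⟩ := SectionsOverExtensions.result K a b h1 M₀ hM1 hM r n q G e m h2 σ M d hd h3 ε hε
    refine ⟨C, fun B hB => ?_⟩
    obtain ⟨FF, hF1, hF2, hF3⟩ := hC B hB
    refine ⟨FF, hF1, hF2, fun y hy hyB => ?_⟩
    by_contra hcon
    push Not at hcon
    exact hy.2 (hF3 y hyB hcon)
  · intro ε hε
    refine ⟨0, fun B hB => ⟨∅, ?_, fun f hf => absurd hf (Finset.notMem_empty f),
      fun y hy => absurd hy.1 h⟩⟩
    rw [Finset.card_empty, Nat.cast_zero, zero_mul]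

/-- the index set -/
abbrev I (n : ℕ) : Type := Σ K : NF, Σ r : ℕ, Σ q : ℕ, (𝓞 K.1 × 𝓞 K.1) ×
  (Fin q → MvPolynomial ((Fin r × Fin 3) ⊕ Fin (n + 1)) (𝓞 K.1)) × (ℕ × ℕ)

/-- the exceptional sets -/
def Bad (n : ℕ) : ∀ i : I n, Set (ℙ i.1.1 (Fin (n + 1) → i.1.1))
  | ⟨K, _, _, (a, b), G, (M, d)⟩ => {y | Hyp K.1 a b G M d ∧ ¬ NoSection a b G M y}

end Proof

/-- **Theorem.** See the header. -/
theorem result :
    (∀ (n : ℕ) (v : ℕ → ℝ) (τ θ : ℝ), (∀ k, 1 ≤ v k) → 0 ≤ τ → ExpLe v τ → θ < 1 →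
      ∃ A : Set (Fin (n + 1) → ℝ), dimH A ≤ ENNReal.ofReal (((n : ℝ) + τ) / (1 - θ)) ∧
        ∀ α : Fin (n + 1) → ℝ, α ∉ A → ∀ K : NF, Explained K.1 n v α θ) ∧
    (∀ b : ℝ, 0 < b → ExpLe (fun n : ℕ => ((n : ℝ) + 1) ^ b) (1 / b)) ∧
    (∀ b : ℝ, 1 < b → ExpLe (fun n : ℕ => b ^ n) 0) := by
  classical
  refine ⟨fun n v τ θ hv hτ hE hθ => ?_, fun b hb => Pool.Agent.Y854.GM.expLe_pow b hb,
    fun b hb => Pool.Agent.Y854.GM.expLe_geom b hb⟩
  obtain ⟨A, hA, H⟩ := Pool.Agent.X134.Win.cubes (n := n) (ι := I n) (fun i => i.1)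
    (fun i => i.2.2.2.2.2.2) (Bad n)
    (by rintro ⟨K, r, q, ⟨a, b⟩, G, M, d⟩; exact few K.1 a b G M d) hv hτ hE hθ
  refine ⟨A, hA, fun α hα K a b hab M₀ hM1 hM r q G e deg hG σ M d hd hX => ?_⟩
  obtain ⟨k₀, hk₀⟩ := H α hα ⟨K, r, q, (a, b), G, M, d⟩
  refine ⟨k₀, fun k hk y hy hc => ?_⟩
  by_contra hbad
  exact hk₀ k hk y hy hc ⟨⟨hab, ⟨M₀, hM1, hM⟩, ⟨e, deg, hG⟩, hd, σ, hX⟩, hbad⟩

end Pool.Agent.Results.MP_896029_ag.SectionsInCubes
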