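import Pool.Agent.Results.MP_896029_ag.SectionsOverExtensions
import Pool.Agent.X134.Win.Line
import Pool.Agent.X134.Win.Idx

/-!
# Sections for the members near generic targets of all one-parameter families in powers of elliptic curves

The following holds for ALL elliptic curves `E : y² = x³ + a x + b` over a number field `K` whose Tate-Shafarevich group
over `K` is killed by some integer (any rank; nothing is assumed over larger fields) and ALL closed subsets `X` of
`E ^ r × ℙ ^ 1` over `K` (families of subvarieties `X_y ⊆ E ^ r` with parameter `y`) such that for `1 ≤ m ≤ M` every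
complex point of `E ^ r` is for at most `d` of the `y` a sum of `m` points of `X_y`. Let `η > 0`. For ALL points `y` of
`ℙ ^ 1 (K)` of large height `H` at distance at most `H ^ (-η)` from a given target `x` and ALL extensions `F` of `K` of
degree at most `M`, no curve `C` over `F` with a map to `X_y` has a section of the map from `π₁(C)` to the absolute Galois
group of `F` which satisfies the valuative form of the section conjecture over the completions of `F` at all finite places.

1. For a number field `K` and an arbitrary map of `ℙ ^ 1 (K)` to a metric space (for instance the affine coordinate in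
one or several completions of `K`) this is proved for all targets outside a set of Hausdorff dimension zero.

2. There is one set in `ℂ` of Hausdorff dimension zero such that this is proved for all number fields `K`, all embeddings
in `ℂ` (and the affine coordinate) and all targets outside this set.

Proof. The starting result `SectionsOverExtensions` gives `O(B ^ ε)` exceptions up to height `B`; covering argument; the
situations are countable in number.
-/

set_option autoImplicit false

namespace Pool.Agent.Results.MP_896029_ag.SectionsNearTargets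

open MvPolynomial NumberField IsDedekindDomain MeasureTheory
open Pool.Agent.TH954 Pool.Agent.W620.SC

open scoped LinearAlgebra.Projectivization

/-- the number fields inside a fixed algebraic closure of the rationals -/
abbrev NF : Type := Pool.Agent.X134.Win.NF

/-- for `1 ≤ m ≤ M` each complex point of `E ^ r` is a sum of `m` points of `X_y` for at most `d` of the complex `y` -/
def SumsLE {K : Type} [Field K] (σ : K →+* ℂ) (a b : 𝓞 K) {r q : ℕ}
    (G : Fin q → MvPolynomial ((Fin r × Fin 3) ⊕ Fin (1 + 1)) (𝓞 K)) (M d : ℕ) : Prop :=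
  ∀ m, 1 ≤ m → m ≤ M → ∀ S : Fin r → (SectionsOverExtensions.curve (σ a) (σ b)).toAffine.Point,
    {y : ℙ ℂ (Fin (1 + 1) → ℂ) | SectionsOverExtensions.IsSum σ a b G m S y.rep}.encard ≤ d

/-- no curve over an extension `F` of `K` of degree at most `M` which maps to `X_y` has a section which satisfies the
valuative form of the section conjecture at all finite places: `L` is the function field of the curve, `U` the set
of the valuation rings of its points, `N` an extension of `L` which contains the maximal extension unramified over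
`U`, `P` the image of the generic point in `E ^ r` -/
def NoSection {K : Type} [Field K] [NumberField K] (a b : 𝓞 K) {r n q : ℕ}
    (G : Fin q → MvPolynomial ((Fin r × Fin 3) ⊕ Fin (n + 1)) (𝓞 K)) (M : ℕ)
    (y : ℙ K (Fin (n + 1) → K)) : Prop :=
  ∀ (F : Type) [Field F] [NumberField F] [Algebra K F] (_ : Module.finrank K F ≤ M)
    (L Ω N A : Type) [Field L] [Field Ω] [Field N] [Field A] [Algebra F L] [Algebra L Ω]
    [Algebra F Ω] [Algebra L N] [Algebra F N] [Algebra F A] [IsScalarTower F L Ω]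
    [IsScalarTower F L N] [IsAlgClosure L Ω] [IsAlgClosure F A]
    (U : Set (ValuationSubring L)) (_ : ∀ O ∈ U, ∀ c : F, algebraMap F L c ∈ O)
    (e : N →ₐ[L] Ω) (_ : unramified L Ω U ≤ e.fieldRange)
    (P : Fin r → ((SectionsOverExtensions.curve (algebraMap K F a)
      (algebraMap K F b)).baseChange L).toAffine.Point)
    (_ : OnX (SectionsOverExtensions.MemberOver G F y) (fun i => crd (P i))) (s : GalSection F L N A),
    ¬ ∀ w : HeightOneSpectrum (𝓞 F),
      s.GeometricOver (w.adicCompletion F) (AlgebraicClosure (w.adicCompletion F))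

/-- the assertion for all elliptic curves over `K` and all families with parameters in `ℙ ^ 1`, for the map `f` and the
target `x` -/
def Explained {K : Type} [Field K] [NumberField K] {X : Type} [MetricSpace X]
    (f : ℙ K (Fin (1 + 1) → K) → X) (x : X) : Prop :=
  ∀ a b : 𝓞 K, 4 * a ^ 3 + 27 * b ^ 2 ≠ 0 → ∀ M₀ : ℕ, 1 ≤ M₀ →
    ShaKilledBy (SectionsOverExtensions.curve (a : K) (b : K)) M₀ → ∀ (r q : ℕ)
    (G : Fin q → MvPolynomial ((Fin r × Fin 3) ⊕ Fin (1 + 1)) (𝓞 K))
    (e : Fin q → Fin r → ℕ) (deg : Fin q → ℕ),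
    (∀ l, SectionsOverExtensions.MultiHomog (G l) (e l) (deg l)) → ∀ (σ : K →+* ℂ) (M d : ℕ),
    SumsLE σ a b G M d → ∀ η : ℝ, 0 < η → ∃ H₀ : ℝ, ∀ y : ℙ K (Fin (1 + 1) → K), H₀ ≤ y.mulHeight →
      dist (f y) x ≤ y.mulHeight ^ (-η) → NoSection a b G M y

/-- the affine coordinate of a point of `ℙ ^ 1 (K)` under the embedding `σ` of `K` -/
noncomputable def affine {K : Type} [Field K] (σ : K →+* ℂ) (y : ℙ K (Fin (1 + 1) → K)) : ℂ :=
  σ (y.rep 1 / y.rep 0)

section Proof

/-- finitely many points of the projective line are the zeros of a form -/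
theorem exists_form (s : Finset (ℙ ℂ (Fin (1 + 1) → ℂ))) :
    ∃ g : MvPolynomial (Fin (1 + 1)) ℂ, g ≠ 0 ∧ g.IsHomogeneous s.card ∧
      ∀ y ∈ s, eval y.rep g = 0 := by
  classical
  refine ⟨∏ z ∈ s, (C (z.rep 1) * X 0 - C (z.rep 0) * X 1), ?_, ?_, fun y hy => ?_⟩
  · rw [Finset.prod_ne_zero_iff]
    intro z _ h0
    apply z.rep_nonzero
    have h1 := congrArg (eval ![1, 0]) h0
    have h2 := congrArg (eval ![0, 1]) h0
    simp at h1 h2
    funext i
    fin_cases i
    · exact h2
    · exact h1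
  · have h := MvPolynomial.IsHomogeneous.prod s (fun z : ℙ ℂ (Fin (1 + 1) → ℂ) =>
      (C (z.rep 1) * X 0 - C (z.rep 0) * X 1 : MvPolynomial (Fin (1 + 1)) ℂ)) (fun _ => 1) (fun z _ =>
      ((isHomogeneous_C_mul_X _ _).sub (isHomogeneous_C_mul_X _ _)))
    simpa using h
  · rw [map_prod]
    refine Finset.prod_eq_zero hy ?_
    simp [mul_comm]

theorem sums_form {K : Type} [Field K] {σ : K →+* ℂ} {a b : 𝓞 K} {r q : ℕ}
    {G : Fin q → MvPolynomial ((Fin r × Fin 3) ⊕ Fin (1 + 1)) (𝓞 K)} {M d : ℕ} (h : SumsLE σ a b G M d)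
    (m : ℕ) (h1 : 1 ≤ m) (h2 : m ≤ M) (S : Fin r → (SectionsOverExtensions.curve (σ a) (σ b)).toAffine.Point) :
    ∃ g : MvPolynomial (Fin (1 + 1)) ℂ, g ≠ 0 ∧ g.IsHomogeneous (d + 1) ∧
      ∀ y : ℙ ℂ (Fin (1 + 1) → ℂ), SectionsOverExtensions.IsSum σ a b G m S y.rep → eval y.rep g = 0 := by
  classical
  have h3 := h m h1 h2 S
  have hfin : {y : ℙ ℂ (Fin (1 + 1) → ℂ) | SectionsOverExtensions.IsSum σ a b G m S y.rep}.Finite :=
    Set.finite_of_encard_le_coe h3
  obtain ⟨g, hg1, hg2, hg3⟩ := exists_form hfin.toFinset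
  have hcard : hfin.toFinset.card ≤ d := by
    rw [hfin.encard_eq_coe_toFinset_card] at h3
    exact_mod_cast h3
  refine ⟨g * X 0 ^ (d + 1 - hfin.toFinset.card), mul_ne_zero hg1 (pow_ne_zero _ (X_ne_zero _)), ?_, fun y hy => ?_⟩
  · have h4 := hg2.mul ((isHomogeneous_X ℂ (0 : Fin (1 + 1))).pow (d + 1 - hfin.toFinset.card))
    rw [one_mul, Nat.add_sub_cancel' (by omega)] at h4
    exact h4
  · rw [map_mul, hg3 y (hfin.mem_toFinset.2 hy), zero_mul]

/-- the hypotheses -/
def Hyp (K : Type) [Field K] [NumberField K] {r q : ℕ} (a b : 𝓞 K)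
    (G : Fin q → MvPolynomial ((Fin r × Fin 3) ⊕ Fin (1 + 1)) (𝓞 K)) (M d : ℕ) : Prop :=
  4 * a ^ 3 + 27 * b ^ 2 ≠ 0 ∧
    (∃ M₀ : ℕ, 1 ≤ M₀ ∧ ShaKilledBy (SectionsOverExtensions.curve (a : K) (b : K)) M₀) ∧
    (∃ (e : Fin q → Fin r → ℕ) (m : Fin q → ℕ),
      ∀ l, SectionsOverExtensions.MultiHomog (G l) (e l) (m l)) ∧
    ∃ σ : K →+* ℂ, SumsLE σ a b G M d

theorem few (K : Type) [Field K] [NumberField K] {r q : ℕ} (a b : 𝓞 K)
    (G : Fin q → MvPolynomial ((Fin r × Fin 3) ⊕ Fin (1 + 1)) (𝓞 K)) (M d : ℕ) :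
    Pool.Agent.X134.Win.OnFewHypersurfaces (d + 1) {y : ℙ K (Fin (1 + 1) → K) | Hyp K a b G M d ∧
      ¬ NoSection a b G M y} := by
  by_cases h : Hyp K a b G M d
  · obtain ⟨h1, ⟨M₀, hM1, hM⟩, ⟨e, m, h2⟩, σ, h3⟩ := id h
    intro ε hε
    obtain ⟨C, hC⟩ := SectionsOverExtensions.result K a b h1 M₀ hM1 hM r 1 q G e m h2 σ M (d + 1) (by omega)
      (sums_form h3) ε hε
    refine ⟨C, fun B hB => ?_⟩
    obtain ⟨FF, hF1, hF2, hF3⟩ := hC B hB
    refine ⟨FF, hF1, hF2, fun y hy hyB => ?_⟩
    by_contra hcon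
    push Not at hcon
    exact hy.2 (hF3 y hyB hcon)
  · intro ε hε
    refine ⟨0, fun B hB => ⟨∅, ?_, fun f hf => absurd hf (Finset.notMem_empty f),
      fun y hy => absurd hy.1 h⟩⟩
    rw [Finset.card_empty, Nat.cast_zero, zero_mul]

/-- the index set -/
abbrev I (K : Type) [Field K] [NumberField K] : Type := Σ r : ℕ, Σ q : ℕ, (𝓞 K × 𝓞 K) ×
  (Fin q → MvPolynomial ((Fin r × Fin 3) ⊕ Fin (1 + 1)) (𝓞 K)) × (ℕ × ℕ)

theorem countable_I (K : Type) [Field K] [NumberField K] : Countable (I K) := by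
  have h1 : Countable (𝓞 K) := Pool.Agent.X134.Win.countable_integers K
  have h2 : ∀ r, Countable (MvPolynomial ((Fin r × Fin 3) ⊕ Fin (1 + 1)) (𝓞 K)) := fun r =>
    Pool.Agent.X134.Win.countable_mvPolynomial _ _
  infer_instance

/-- the exceptional sets -/
def Bad {K : Type} [Field K] [NumberField K] : I K → Set (ℙ K (Fin (1 + 1) → K))
  | ⟨_, _, (a, b), G, (M, d)⟩ => {y | Hyp K a b G M d ∧ ¬ NoSection a b G M y}

end Proof

/-- **Theorem.** (1) Let `K` be a number field and `f` an arbitrary map of `ℙ ^ 1 (K)` to a metric space `X` (with its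
Borel sets). There is a set `A ⊆ X` of Hausdorff dimension zero such that `Explained f x` for all `x ∉ A`. (2) There is a
set `A ⊆ ℂ` of Hausdorff dimension zero such that `Explained (affine σ) x` for all `x ∉ A`, all number fields `K` and all
embeddings `σ` of `K` in `ℂ`. -/
theorem result :
    (∀ (K : Type) [Field K] [NumberField K] (X : Type) [MetricSpace X] [MeasurableSpace X] [BorelSpace X]
      (f : ℙ K (Fin (1 + 1) → K) → X), ∃ A : Set X, dimH A = 0 ∧ ∀ x : X, x ∉ A → Explained f x) ∧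
    (∃ A : Set ℂ, dimH A = 0 ∧ ∀ x : ℂ, x ∉ A → ∀ (K : NF) (σ : K.1 →+* ℂ), Explained (affine σ) x) := by
  have part1 : ∀ (K : Type) [Field K] [NumberField K] (X : Type) [MetricSpace X] [MeasurableSpace X] [BorelSpace X]
      (f : ℙ K (Fin (1 + 1) → K) → X), ∃ A : Set X, dimH A = 0 ∧ ∀ x : X, x ∉ A → Explained f x := by
    intro K _ _ X _ _ _ f
    have := countable_I K
    obtain ⟨A, hA, H⟩ := Pool.Agent.X134.Win.targets_c (X := X) (ι := I K)
      (T := fun _ => ℙ K (Fin (1 + 1) → K)) (fun _ => f) (fun _ y => y.mulHeight) (fun i _ y => y ∉ Bad i)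
      (by
        rintro ⟨r, q, ⟨a, b⟩, G, M, d⟩
        exact Pool.Agent.X134.Win.fewBad_line (d + 1) _ (few K a b G M d))
    refine ⟨A, hA, fun x hx a b hab M₀ hM1 hM r q G e deg hG σ M d hX η hη => ?_⟩
    obtain ⟨h₀, hh⟩ := H x hx ⟨r, q, (a, b), G, (M, d)⟩ η hη 1 one_pos
    refine ⟨h₀, fun y hy hyx => ?_⟩
    obtain ⟨N, -, -, hg⟩ := hh y hy hyx
    by_contra hbad
    exact hg ⟨⟨hab, ⟨M₀, hM1, hM⟩, ⟨e, deg, hG⟩, σ, hX⟩, hbad⟩
  refine ⟨part1, ?_⟩
  choose A hA1 hA2 using fun i : (Σ K : NF, (K.1 →+* ℂ)) => part1 i.1.1 ℂ (affine i.2)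
  have hfin : ∀ K : NF, Countable (K.1 →+* ℂ) := fun K => by
    have : Finite (K.1 →+* ℂ) := inferInstance
    infer_instance
  refine ⟨⋃ i, A i, by rw [dimH_iUnion]; simp [hA1], fun x hx K σ => ?_⟩
  exact hA2 ⟨K, σ⟩ x (fun h => hx (Set.mem_iUnion.2 ⟨_, h⟩))

end Pool.Agent.Results.MP_896029_ag.SectionsNearTargets
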