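import Pool.Agent.X20.Tr.Sqf
import Pool.Agent.Results.MP_896029_ag.SectionsNearBranchPoint

/-!
# The sections of the quadratic twists by `± ⌊α n ^ c⌋` have modulo 2 the type of one rational branch point

From Mathlib: `dimH E`: the Hausdorff dimension; `⌊x⌋₊`: the integer part; `Finset.Icc 1 N`: the integers from `1` to
`N`. From the team's `SectionsNearBranchPoint` (its definitions are used as they are): `Factors f`: the `f k ∈ ℤ[x]` are
irreducible over `ℚ`, pairwise non-associated, of even total degree, and at least four of them have odd degree; `Ln f`: the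
indices of the linear factors; `General f`: the condition on the linear factors; `OtherSection f d`: for some field `F`
over `ℚ` with a point `(x, y)`, `x` transcendental, of the curve `d y ^ 2 = ∏ k, f k (x)` and some set `U` of valuation
rings of `F` over `ℚ`, some section of `π₁(U) = Gal(F_U/F) → G_ℚ` does not have modulo 2 the type (`TypeOf`) of the zero
of a linear factor.
-/

set_option autoImplicit false

open Finset Filter Polynomial
open Pool.Agent.X20.Tr
open Pool.Agent.Results.MP_896029_ag.SectionsNearBranchPoint (Factors General Ln OtherSection)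

namespace Pool.Agent.Results.MP_896029_ag.SparseSectionsNearBranchPoint

universe v w

open Classical in
/-- For every real `c > 1` there are `κ > 0` and a set `E` of real numbers of Hausdorff dimension at most `1 - κ`
such that for every real `α > 0` outside `E`, writing `m(n) = ⌊α n ^ c⌋`:

* for all large `N` at least `N / 24` of the `m(n)`, `n ≤ N`, are squarefree;
* for EVERY system `f` with `Factors f`, `General f` and at least one linear member there is `δ > 0` such that for both
  signs, some `C` and all large `N`, with at most `C N (log N) ^ (-δ)` exceptions, the `n ≤ N` with squarefree `m(n)` have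
  the property that every section of the fundamental group of the curve `d y ^ 2 = ∏ k, f k (x)`, `d = ± m(n)` (and of
  the curve with any set of closed points removed, and of all curves that dominate it), has modulo 2 the type of one
  rational branch point. -/
theorem result (c : ℝ) (hc : 1 < c) : ∃ κ : ℝ, 0 < κ ∧ κ < 1 ∧ ∃ E : Set ℝ, dimH E ≤ ENNReal.ofReal (1 - κ) ∧
    ∀ α : ℝ, 0 < α → α ∉ E →
      (∃ N₀ : ℕ, ∀ N : ℕ, N₀ ≤ N →
        (N : ℝ) / 24 ≤ (((Icc 1 N).filter (fun n : ℕ => Squarefree ⌊α * (n : ℝ) ^ c⌋₊)).card : ℝ)) ∧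
      (∀ (k : ℕ) (f : Fin k → ℤ[X]), Factors f → General f → (Ln f).Nonempty →
        ∃ δ : ℝ, 0 < δ ∧ ∀ s : ℤ, (s = 1 ∨ s = -1) → ∃ C : ℝ, ∃ N₀ : ℕ, ∀ N : ℕ, N₀ ≤ N →
          (((Icc 1 N).filter (fun n : ℕ => Squarefree ⌊α * (n : ℝ) ^ c⌋₊ ∧
            OtherSection.{v, w} f (s * ((⌊α * (n : ℝ) ^ c⌋₊ : ℕ) : ℤ)))).card : ℝ) ≤ C * N * (Real.log N) ^ (-δ)) := by
  obtain ⟨κ, hκ0, hκ1, H⟩ := sparse_sqf c hc
  have := countable_systems
  obtain ⟨E, hE, h⟩ := H ((k : ℕ) × (Fin k → ℤ[X])) (fun i d => OtherSection.{v, w} i.2 d)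
  refine ⟨κ, hκ0, hκ1, E, hE, fun α hα hαE => ⟨(h α hα hαE).1, fun k f hf hg hl => ?_⟩⟩
  obtain ⟨δ, hδ, C, hC⟩ := SectionsNearBranchPoint.result.{v, w} (Fin k) f hf hg hl
  exact ⟨δ, hδ, fun s hs => (h α hα hαE).2 ⟨k, f⟩ s hs δ C hδ ⟨3, hC⟩⟩

end Pool.Agent.Results.MP_896029_ag.SparseSectionsNearBranchPoint
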